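import Pool.Agent.Helper65.EV.All
import Pool.Agent.Helper84.Eve.Model

/-!
# A criterion for positive frequencies of all initial types
-/

set_option autoImplicit false

open MeasureTheory ProbabilityTheory Set Filter
open scoped ENNReal Topology
open Pool.Agent.Helper84.Eve

/-- Let `Λ` be in the intensive-with-dust regime with `Λ {1} = 0`, and let
`A(s) = ∫ min(-log(1 - v), s) ν(dv)`. Assume that

(a) `∫_(0,1/2] u |log u| / A(|log u|) ν(du) = ∞`, or
(b) `∫ -log(1 - u) ν(du) < ∞` and `-∫_[0,1) u log u ν(du) = ∞`.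

Then lookdown systems for `Λ` exist, and in every lookdown system, for every family `ρ` of random
measures such that for each `t ≥ 0` almost surely `ρ t` is the limit of the empirical measures of the
levels, almost surely every initial type gets a positive frequency at some time. -/
theorem Pool.Agent.Results.MP_dd3681_pr.FrequencyCriterion.result (Λ : Measure ℝ)
    (hΛ : DustRegime Λ) (h1 : Λ {1} = 0)
    (h : ∫⁻ u in Ioc 0 (1 / 2), ENNReal.ofReal (u * -Real.log u) /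
          (∫⁻ v, ENNReal.ofReal (min (-Real.log (1 - v)) (-Real.log u)) ∂(nu Λ)) ∂(nu Λ) = ∞ ∨
      (∫⁻ u, ENNReal.ofReal (-Real.log (1 - u)) ∂(nu Λ) < ∞ ∧
        ∫⁻ u in Ico 0 1, ENNReal.ofReal (-(u * Real.log u)) ∂(nu Λ) = ∞)) :
    (∃ (Ω : Type) (_ : MeasurableSpace Ω) (P : Measure Ω), IsProbabilityMeasure P ∧
      Nonempty (Lookdown P Λ)) ∧
    ∀ (Ω : Type*) [MeasurableSpace Ω] (P : Measure Ω) [IsProbabilityMeasure P]
      (L : Lookdown P Λ) (ρ : ℝ → Ω → Measure ℝ),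
      (∀ t, 0 ≤ t → ∀ᵐ ω ∂P, EmpLimit (fun i => L.ξ t i ω) (ρ t ω)) →
      ∀ᵐ ω ∂P, ∀ i, ∃ t, 0 ≤ t ∧ 0 < ρ t ω {L.ξ 0 i ω} := by
  have hJ : Pool.Agent.Helper65.EV.JJ Λ = ∞ := by
    rcases h with h | h
    · exact h
    · exact Pool.Agent.Helper65.EV.tCOR hΛ h.1.ne h.2
  refine ⟨exists_lookdown hΛ, ?_⟩
  intro Ω _ P _ L ρ hρ
  exact Pool.Agent.Helper65.EV.tPOS hΛ h1 hJ L ρ hρ
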