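import Pool.Agent.Helper84.Eve.NoEves
import Pool.Agent.Helper84.Eve.Model

open MeasureTheory ProbabilityTheory Set Filter
open scoped ENNReal Topology
open Pool.Agent.Helper84.Eve

/-- Question 2 has a positive answer: for every measure `Λ` in the intensive-with-dust regime, the
`Λ` Fleming-Viot process has no infinite sequence of Eves. -/
theorem Pool.Agent.Results.MP_dd3681_pr.NoEves.result {Λ : Measure ℝ} (hΛ : DustRegime Λ) :
    (∃ (Ω : Type) (_ : MeasurableSpace Ω) (P : Measure Ω), IsProbabilityMeasure P ∧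
      Nonempty (Lookdown P Λ)) ∧
    ∀ (Ω : Type*) [MeasurableSpace Ω] (P : Measure Ω) [IsProbabilityMeasure P]
      (L : Lookdown P Λ) (ρ : ℝ → Ω → Measure ℝ),
      (∀ t, 0 ≤ t → ∀ᵐ ω ∂P, EmpLimit (fun i => L.ξ t i ω) (ρ t ω)) →
      ¬ ∀ᵐ ω ∂P, ∃ e : ℕ → ℝ, IsEves (fun t => ρ t ω) e :=
  ⟨exists_lookdown hΛ, fun _ _ P _ L ρ hρ => q2 hΛ P L ρ hρ⟩
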