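import Pool.Agent.Helper84.Eve.First
import Pool.Agent.Helper84.Eve.Model

open MeasureTheory ProbabilityTheory Set Filter
open scoped ENNReal Topology
open Pool.Agent.Helper84.Eve

/-- Question 1 has a negative answer: there is a measure `Λ` in the intensive-with-dust regime with
`-∫ u log u ν(du) = ∞` (and without atom at `1`) for which the second initial type gets no positive
frequency at any time, with positive probability. -/
theorem Pool.Agent.Results.MP_dd3681_pr.PositiveFrequency.result : ∃ Λ : Measure ℝ,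
    DustRegime Λ ∧ Λ {1} = 0 ∧
    ∫⁻ u in Ico 0 1, ENNReal.ofReal (-(u * Real.log u)) ∂(nu Λ) = ∞ ∧
    (∃ (Ω : Type) (_ : MeasurableSpace Ω) (P : Measure Ω), IsProbabilityMeasure P ∧
      Nonempty (Lookdown P Λ)) ∧
    ∀ (Ω : Type*) [MeasurableSpace Ω] (P : Measure Ω) [IsProbabilityMeasure P]
      (L : Lookdown P Λ),
      P {ω | ∃ t, 0 ≤ t ∧ ((∃ i j, i ≠ j ∧ L.ξ t i ω = L.ξ 0 1 ω ∧ L.ξ t j ω = L.ξ 0 1 ω) ∨
        ∃ μ, EmpLimit (fun i => L.ξ t i ω) μ ∧ 0 < μ {L.ξ 0 1 ω})} < 1 ∧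
      ∀ ρ : ℝ → Ω → Measure ℝ, IsFV L ρ →
        ¬ ∀ᵐ ω ∂P, ∀ i, ∃ t, 0 ≤ t ∧ 0 < ρ t ω {L.ξ 0 i ω} := by
  obtain ⟨Λ, h1, h2, h3, h4⟩ := q1_strong
  exact ⟨Λ, h1, h2, h3, exists_lookdown h1, h4⟩
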